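import Mathlib

namespace Pool.Agent.Results.MP_6c91b3_co.Girth4

open Finset

/-- the degree of a vertex -/
noncomputable def deg {n : ℕ} (G : SimpleGraph (Fin n)) (v : Fin n) : ℕ := (G.neighborSet v).ncard

/-- half of the vertices have degree two and the other half degree three -/
def InD23 {n : ℕ} (G : SimpleGraph (Fin n)) : Prop :=
  2 * {v | deg G v = 2}.ncard = n ∧ 2 * {v | deg G v = 3}.ncard = n

/-- a smallest graph of the class with girth `g` -/
def Extremal (g : ℕ) {n : ℕ} (G : SimpleGraph (Fin n)) : Prop :=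
  InD23 G ∧ G.girth = g ∧ ∀ (m : ℕ) (H : SimpleGraph (Fin m)), InD23 H → H.girth = g → n ≤ m

lemma deg_eq {n : ℕ} (G : SimpleGraph (Fin n)) [DecidableRel G.Adj] (v : Fin n) :
    deg G v = G.degree v := by
  rw [deg, ← SimpleGraph.card_neighborSet_eq_degree, Set.ncard_eq_toFinset_card', Set.toFinset_card]

lemma ncard_eq {n : ℕ} (G : SimpleGraph (Fin n)) [DecidableRel G.Adj] (k : ℕ) :
    {v | deg G v = k}.ncard = (univ.filter fun v => G.degree v = k).card := by
  rw [← Set.ncard_coe_finset]
  congr 1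
  ext v
  simp [deg_eq]

def E : List (Fin 8 × Fin 8) :=
  [(0, 2), (0, 3), (1, 2), (1, 3), (0, 4), (4, 5), (5, 1), (2, 6), (6, 7), (7, 3)]

def G0 : SimpleGraph (Fin 8) := SimpleGraph.fromRel fun a b => (a, b) ∈ E

instance : DecidableRel G0.Adj := fun a b => by
  unfold G0; rw [SimpleGraph.fromRel_adj]; infer_instance

lemma girth_G0 : G0.girth = 4 := by
  let w : G0.Walk 0 0 := .cons (show G0.Adj 0 2 by decide) (.cons (show G0.Adj 2 1 by decide)
    (.cons (show G0.Adj 1 3 by decide) (.cons (show G0.Adj 3 0 by decide) .nil)))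
  have hw : w.IsCycle := by
    rw [SimpleGraph.Walk.isCycle_def, SimpleGraph.Walk.isTrail_def]
    refine ⟨by decide, by simp [w], by decide⟩
  have h1 : G0.girth ≤ 4 := SimpleGraph.girth_le_length hw
  have hac : ¬ G0.IsAcyclic := fun h => h w hw
  have h2 := SimpleGraph.three_le_girth hac
  obtain ⟨a, c, hc, hl⟩ := SimpleGraph.exists_girth_eq_length.2 hac
  by_contra hne
  have h3 : c.length = 3 := by omega
  obtain ⟨s, hs⟩ := SimpleGraph.is3Clique_iff_exists_cycle_length_three.2 ⟨a, c, hc, h3⟩
  obtain ⟨x, y, z, h4, h5, h6, -⟩ := SimpleGraph.is3Clique_iff.1 hs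
  revert x y z
  decide

lemma lower (m : ℕ) (H : SimpleGraph (Fin m)) (h : InD23 H) (hg : H.girth = 4) : 8 ≤ m := by
  classical
  obtain ⟨h2, h3⟩ := h
  rw [ncard_eq] at h2 h3
  have hdisj : Disjoint (univ.filter fun v => H.degree v = 2)
      (univ.filter fun v => H.degree v = 3) := by
    rw [disjoint_filter]; intro v _ a b; omega
  have hun : (univ.filter fun v => H.degree v = 2) ∪ (univ.filter fun v => H.degree v = 3)
      = univ := by
    apply eq_univ_of_card
    rw [card_union_of_disjoint hdisj, Fintype.card_fin]; omega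
  have hsum := H.sum_degrees_eq_twice_card_edges
  rw [← hun, sum_union hdisj, sum_congr rfl (g := fun _ => 2) (fun v hv => (mem_filter.1 hv).2),
    sum_congr (s₁ := univ.filter fun v => H.degree v = 3) rfl (g := fun _ => 3)
      (fun v hv => (mem_filter.1 hv).2)] at hsum
  simp only [sum_const, smul_eq_mul] at hsum
  by_contra hlt
  have hm : m = 0 ∨ m = 4 := by omega
  rcases hm with rfl | rfl
  · have : H.IsAcyclic := fun v => v.elim0
    rw [← SimpleGraph.girth_eq_zero] at this
    omega
  · have hpos : 0 < (univ.filter fun v => H.degree v = 3).card := by omega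
    obtain ⟨v, hv⟩ := card_pos.1 hpos
    have hv3 : H.degree v = 3 := (mem_filter.1 hv).2
    have hall : ∀ u, u ≠ v → H.Adj v u := by
      intro u hu
      have hsub : H.neighborFinset v ⊆ univ.erase v := by
        intro x hx
        simp only [mem_erase, mem_univ, and_true]
        exact ((H.mem_neighborFinset v x).1 hx).ne'
      have := eq_of_subset_of_card_le hsub (by
        rw [H.card_neighborFinset_eq_degree, hv3]; simp)
      rw [← H.mem_neighborFinset, this]; simp [hu]
    obtain ⟨u, hu⟩ := exists_ne v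
    have hu2 : 1 < (H.neighborFinset u).card := by
      rw [H.card_neighborFinset_eq_degree]
      have : u ∈ (univ.filter fun v => H.degree v = 2) ∪ (univ.filter fun v => H.degree v = 3) := by
        rw [hun]; exact mem_univ _
      rcases mem_union.1 this with h | h
      · have := (mem_filter.1 h).2; omega
      · have := (mem_filter.1 h).2; omega
    obtain ⟨w, hw, hwv⟩ := exists_mem_ne hu2 v
    have hcl : H.IsNClique 3 {v, u, w} :=
      SimpleGraph.is3Clique_triple_iff.2 ⟨hall u hu, hall w hwv, (H.mem_neighborFinset _ _).1 hw⟩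
    obtain ⟨a, c, hc, hl⟩ := SimpleGraph.is3Clique_iff_exists_cycle_length_three.1 ⟨_, hcl⟩
    have := SimpleGraph.girth_le_length hc
    omega

theorem result : ∃ (g : ℕ) (n : ℕ) (G : SimpleGraph (Fin n)), 3 ≤ g ∧ Extremal g G ∧
    ∃ u v, G.Adj u v ∧ deg G u = 2 ∧ deg G v = 2 := by
  refine ⟨4, 8, G0, by norm_num, ⟨⟨?_, ?_⟩, girth_G0, lower⟩, 4, 5, by decide, ?_, ?_⟩
  · rw [ncard_eq]; decide
  · rw [ncard_eq]; decide
  · rw [deg_eq]; decide
  · rw [deg_eq]; decide

end Pool.Agent.Results.MP_6c91b3_co.Girth4
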